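import Pool.Agent.Q88.MK.Stm

/-!
# Project MK: jobs POL, SUM, GRW
-/

set_option autoImplicit false

open Set MvPolynomial

noncomputable section

namespace Pool.Agent.Q186.MK

open Pool.Agent.Q88.MK

/-- Job POL. -/
theorem pol : S_pol := by
  intro S a m hS
  refine ⟨∑ q ∈ S, C (a q) * X 0 ^ q.1 * X 1 ^ q.2, ?_, ?_⟩
  · refine MvPolynomial.totalDegree_finsetSum_le fun q hq => ?_
    refine (MvPolynomial.totalDegree_mul _ _).trans ?_
    have h1 : (C (a q) * X 0 ^ q.1 : Pol).totalDegree ≤ q.1 := by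
      refine (MvPolynomial.totalDegree_mul _ _).trans ?_
      rw [MvPolynomial.totalDegree_C, MvPolynomial.totalDegree_X_pow, zero_add]
    have h2 : (X 1 ^ q.2 : Pol).totalDegree ≤ q.2 := by
      rw [MvPolynomial.totalDegree_X_pow]
    exact (add_le_add h1 h2).trans (hS q hq)
  · intro x y
    unfold ev Fs
    rw [map_sum]
    refine Finset.sum_congr rfl fun q _ => ?_
    simp

/-- Job SUM. -/
theorem sum1 : S_sum := by
  intro s S a ν m sep q₀ hν hνm hsep hq₀ hS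
  have hm : 0 < m := lt_of_lt_of_le hν hνm
  have key : ∀ r ∈ S, |a r * (ν / (ν - E s r))| ≤ |a r| * (m / sep) := by
    intro r hr
    rw [abs_mul, abs_div, abs_of_pos hν]
    refine mul_le_mul_of_nonneg_left ?_ (abs_nonneg _)
    exact div_le_div₀ hm.le hνm hsep (hS r hr)
  rw [Finset.sum_insert hq₀]
  have h1 : |op s S a ν q₀ q₀| ≤ ∑ r ∈ S, |a r| * (m / sep) := by
    unfold op
    rw [if_pos rfl, abs_neg]
    exact (Finset.abs_sum_le_sum_abs _ _).trans (Finset.sum_le_sum key)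
  have h2 : ∑ q ∈ S, |op s S a ν q₀ q| ≤ ∑ r ∈ S, |a r| * (m / sep) := by
    refine Finset.sum_le_sum fun q hq => ?_
    unfold op
    have hne : q ≠ q₀ := by
      rintro rfl
      exact hq₀ hq
    rw [if_neg hne]
    exact key q hq
  have h3 : ∑ r ∈ S, |a r| * (m / sep) = m / sep * ∑ q ∈ S, |a q| := by
    rw [Finset.mul_sum]
    exact Finset.sum_congr rfl fun r _ => mul_comm _ _
  rw [h3] at h1 h2
  calc |op s S a ν q₀ q₀| + ∑ q ∈ S, |op s S a ν q₀ q|
      ≤ m / sep * ∑ q ∈ S, |a q| + m / sep * ∑ q ∈ S, |a q| := add_le_add h1 h2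
    _ = 2 * m / sep * ∑ q ∈ S, |a q| := by ring

/-- Job GRW. -/
theorem grw : S_grw := by
  intro s x y S a m hs hx hy hyx hS
  have hx0 : 0 < x := by linarith
  unfold Fs
  refine (Finset.abs_sum_le_sum_abs _ _).trans ?_
  rw [mul_assoc, Finset.sum_mul]
  refine Finset.sum_le_sum fun q hq => ?_
  obtain ⟨h1, h2⟩ := hS q hq
  rw [mul_assoc, abs_mul]
  refine mul_le_mul_of_nonneg_left ?_ (abs_nonneg _)
  have hxs : 0 ≤ x ^ s := (Real.rpow_pos_of_pos hx0 s).le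
  have h3 : y ^ q.2 ≤ (2 * x ^ s) ^ q.2 := pow_le_pow_left₀ hy hyx _
  rw [abs_of_nonneg (mul_nonneg (pow_nonneg hx0.le _) (pow_nonneg hy _))]
  have h4 : x ^ q.1 * (x ^ s) ^ q.2 = x ^ (E s q) := by
    unfold E
    rw [Real.rpow_add hx0, Real.rpow_natCast, mul_comm (q.2 : ℝ) s, Real.rpow_mul hx0.le,
      Real.rpow_natCast]
  have h5 : x ^ (E s q) ≤ x ^ m := by
    rw [← Real.rpow_natCast x m]
    exact Real.rpow_le_rpow_of_exponent_le hx h2
  have h6 : (2 : ℝ) ^ q.2 ≤ 2 ^ m := pow_le_pow_right₀ (by norm_num) h1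
  calc x ^ q.1 * y ^ q.2 ≤ x ^ q.1 * (2 * x ^ s) ^ q.2 :=
        mul_le_mul_of_nonneg_left h3 (pow_nonneg hx0.le _)
    _ = 2 ^ q.2 * (x ^ q.1 * (x ^ s) ^ q.2) := by rw [mul_pow]; ring
    _ = 2 ^ q.2 * x ^ (E s q) := by rw [h4]
    _ ≤ 2 ^ m * x ^ m := by
        refine mul_le_mul h6 h5 ?_ (by positivity)
        exact (Real.rpow_pos_of_pos hx0 _).le

end Pool.Agent.Q186.MK
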